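import Mathlib
import Pool.Agent.NH14.LI.N14

/-! Independence modulo one outside finitely many classes, and means of trigonometric sums along arithmetic
progressions. -/

set_option autoImplicit false

open Finset Filter Topology
open Pool.Agent.H469R2.NK (e norm_e e_add conj_e e_zero)
open Pool.Agent.H383.Gen (U Bd)
open Pool.Agent.H383.Gauss (GoodS InC Gr)
open Pool.Agent.H383.AP
open Pool.Agent.Y969.TM
open Pool.Agent.NH14.LI

namespace Pool.Agent.NH14.TL

variable {α : ℝ} {S0 : Finset ℕ}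

/-- independence modulo one -/
lemma indep1 (hS : GoodS α S0) {S : Finset ℕ} (hsq : ∀ s ∈ S, Squarefree s ∧ s ∉ S0)
    {k : ℕ → ℤ} (h : ∃ z : ℤ, α * ∑ s ∈ S, (k s : ℝ) * √(s:ℝ) = z) : ∀ s ∈ S, k s = 0 := by
  classical
  intro s hs
  obtain ⟨z, hz⟩ := h
  refine hS s (hsq s hs).1 (hsq s hs).2 (k s) (∑ t ∈ S.erase s, (k t : ℝ) * (α * √(t:ℝ))) ?_ ⟨z, ?_⟩
  · apply AddSubgroup.sum_mem
    intro t ht
    rw [mem_erase] at ht
    rw [← zsmul_eq_mul]
    apply AddSubgroup.zsmul_mem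
    apply AddSubgroup.subset_closure
    refine ⟨t, Nat.one_le_iff_ne_zero.mpr (hsq t ht.2).1.ne_zero, ?_, rfl⟩
    intro hc
    have h1 := Pool.Agent.H383.Gen.inC_unique (m := t) (hsq s hs).1 (hsq t ht.2).1
      (Nat.one_le_iff_ne_zero.mpr (hsq t ht.2).1.ne_zero) hc ⟨1, by ring⟩
    exact ht.1 h1.symm
  · rw [← hz, ← add_sum_erase S _ hs, mul_add, mul_sum]
    congr 1
    · ring
    · apply sum_congr rfl
      intro t _
      ring

/-- the class of `m` is not exceptional -/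
def Outs (S0 : Finset ℕ) (m : ℕ) : Prop := ∀ s ∈ S0, Squarefree s → ¬ InC s m

/-- frequencies outside the exceptional classes -/
def Go (S0 : Finset ℕ) : AddSubgroup ℝ := AddSubgroup.closure {x | ∃ m : ℕ, 1 ≤ m ∧ Outs S0 m ∧ x = √(m:ℝ)}

lemma Go_rep {x : ℝ} (hx : x ∈ Go S0) : ∃ (S : Finset ℕ) (k : ℕ → ℤ), (∀ s ∈ S, Squarefree s ∧ s ∉ S0) ∧
    (∀ s, s ∉ S → k s = 0) ∧ x = ∑ s ∈ S, (k s : ℝ) * √(s:ℝ) := by
  classical
  unfold Go at hx
  induction hx using AddSubgroup.closure_induction with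
  | mem x hx =>
    obtain ⟨m, hm, hO, rfl⟩ := hx
    obtain ⟨s, t, hst, hs⟩ := Nat.sq_mul_squarefree m
    refine ⟨{s}, fun r => if r = s then t else 0, ?_, ?_, ?_⟩
    · intro r hr
      rw [mem_singleton] at hr
      subst hr
      refine ⟨hs, fun hmem => hO r hmem hs ⟨t, by rw [← hst]; ring⟩⟩
    · intro r hr
      rw [mem_singleton] at hr
      exact if_neg hr
    · rw [sum_singleton]
      simp only [if_true]
      rw [← hst]
      push_cast
      rw [Real.sqrt_mul (by positivity), Real.sqrt_sq (Nat.cast_nonneg t)]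
  | zero => exact ⟨∅, fun _ => 0, by simp, by simp, by simp⟩
  | add x y _ _ hx hy =>
    obtain ⟨S, k, h1, h2, h3⟩ := hx
    obtain ⟨S', k', h1', h2', h3'⟩ := hy
    refine ⟨S ∪ S', fun s => k s + k' s, ?_, ?_, ?_⟩
    · intro s hs
      rcases mem_union.mp hs with h | h
      · exact h1 s h
      · exact h1' s h
    · intro s hs
      rw [mem_union, not_or] at hs
      simp only
      rw [h2 s hs.1, h2' s hs.2, add_zero]
    · have e1 : ∑ s ∈ S, (k s : ℝ) * √(s:ℝ) = ∑ s ∈ S ∪ S', (k s : ℝ) * √(s:ℝ) := by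
        apply sum_subset subset_union_left
        intro s _ hs
        rw [h2 s hs]; simp
      have e2 : ∑ s ∈ S', (k' s : ℝ) * √(s:ℝ) = ∑ s ∈ S ∪ S', (k' s : ℝ) * √(s:ℝ) := by
        apply sum_subset subset_union_right
        intro s _ hs
        rw [h2' s hs]; simp
      rw [h3, h3', e1, e2, ← sum_add_distrib]
      apply sum_congr rfl
      intro s _
      push_cast; ring
  | neg x _ hx =>
    obtain ⟨S, k, h1, h2, h3⟩ := hx
    refine ⟨S, fun s => - k s, h1, ?_, ?_⟩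
    · intro s hs
      simp only
      rw [h2 s hs, neg_zero]
    · rw [h3, ← sum_neg_distrib]
      apply sum_congr rfl
      intro s _
      push_cast; ring

lemma Go_zero (hS : GoodS α S0) {x : ℝ} (hx : x ∈ Go S0) (h : ∃ z : ℤ, α * x = z) : x = 0 := by
  obtain ⟨S, k, h1, h2, h3⟩ := Go_rep hx
  rw [h3] at h
  have h4 := indep1 hS h1 h
  rw [h3]
  apply sum_eq_zero
  intro s hs
  rw [h4 s hs]; simp

lemma sq_outs {q : ℕ} (hq : Squarefree q) (hq0 : q ∉ S0) : Outs S0 q := by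
  intro s hs hsf hc
  have h1 := Pool.Agent.H383.Gen.inC_unique (m := q) hsf hq
      (Nat.one_le_iff_ne_zero.mpr hq.ne_zero) hc ⟨1, by ring⟩
  rw [h1] at hs
  exact hq0 hs

variable {Q : Finset ℕ} {σ φ X : ℝ}

lemma we_Go (hQ : ∀ q ∈ Q, Squarefree q ∧ q ∉ S0) (ε : Q → ℤ) : we ε ∈ Go S0 := by
  unfold we
  apply AddSubgroup.sum_mem
  intro q _
  rw [← zsmul_eq_mul]
  apply AddSubgroup.zsmul_mem
  apply AddSubgroup.subset_closure
  exact ⟨q, Nat.one_le_iff_ne_zero.mpr (hQ q q.2).1.ne_zero, sq_outs (hQ q q.2).1 (hQ q q.2).2, rfl⟩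

lemma fq_Go {y : ℕ × Bool} {M : ℕ} (hy : y ∈ JS M) (ho : Outs S0 y.1) : fq y ∈ Go S0 := by
  unfold fq
  rw [← zsmul_eq_mul]
  apply AddSubgroup.zsmul_mem
  apply AddSubgroup.subset_closure
  unfold JS at hy
  rw [mem_product, mem_Icc] at hy
  exact ⟨y.1, hy.1.1, ho, rfl⟩

lemma e_chr (X α w : ℝ) (n : ℕ) : e ((X + n * α) * w) = e (X * w) * chr (α * w) n := by
  rw [add_mul, e_add]
  congr 1
  unfold e chr
  congr 1
  push_cast; ring

/-- means of trigonometric sums -/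
lemma mean_fam {ι : Type*} (S : Finset ι) (cc : ι → ℂ) (w : ι → ℝ)
    (hw : ∀ x ∈ S, cc x ≠ 0 → (∃ z : ℤ, α * w x = z) → w x = 0) :
    HasMean (fun n : ℕ => ∑ x ∈ S, cc x * e ((X + n * α) * w x)) (∑ x ∈ S, if w x = 0 then cc x else 0) := by
  have h1 : (fun n : ℕ => ∑ x ∈ S, cc x * e ((X + n * α) * w x)) =
      ∑ x ∈ S, (fun n : ℕ => cc x * e ((X + n * α) * w x)) := by
    funext n
    rw [Finset.sum_apply]
  rw [h1]
  apply HasMean.sum
  intro x hx
  have h2 : (fun n : ℕ => cc x * e ((X + n * α) * w x)) = (cc x * e (X * w x)) • chr (α * w x) := by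
    funext n
    rw [e_chr]
    simp only [Pi.smul_apply, smul_eq_mul]
    ring
  rw [h2]
  by_cases h0 : w x = 0
  · rw [if_pos h0, h0]
    simp only [mul_zero, e_zero, mul_one]
    have h3 := (chr_mean_int (θ := 0) ⟨0, by simp⟩).smul (cc x)
    rw [mul_one] at h3
    exact h3
  · rw [if_neg h0]
    by_cases hc : cc x = 0
    · rw [hc, zero_mul, zero_smul]
      exact hasMean_zero
    · have h3 := (chr_mean_non (θ := α * w x) (fun hz => h0 (hw x hx hc hz))).smul (cc x * e (X * w x))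
      rw [mul_zero] at h3
      exact h3

end Pool.Agent.NH14.TL
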