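import Mathlib
import Pool.Agent.NH14.TL.T1
import Pool.Agent.NH14.LI.N4
import Pool.Agent.NH14.LI.N5

/-! Lower bounds for the frequency of large values along arithmetic progressions. -/

set_option autoImplicit false

open Finset Filter Topology
open Pool.Agent.H469R2.NK (e norm_e e_add conj_e e_zero)
open Pool.Agent.H383.Gen
open Pool.Agent.H383.Gauss (GoodS InC Gr)
open Pool.Agent.H383.AP
open Pool.Agent.Y969.TM
open Pool.Agent.NH14.LI

namespace Pool.Agent.NH14.TL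

variable {α : ℝ} {S0 : Finset ℕ} {Q : Finset ℕ} {σ φ X : ℝ} {a : ℕ → ℝ}

lemma HM_real {f : ℕ → ℝ} {L : ℂ} (h : HasMean (fun n => ((f n : ℝ) : ℂ)) L) : Tendsto (rm f) atTop (𝓝 L.re) := by
  unfold HasMean at h
  have e1 : cm (fun n => ((f n : ℝ) : ℂ)) = fun N => ((rm f N : ℝ) : ℂ) := by
    funext N
    exact cm_ofReal f N
  rw [e1] at h
  exact (Complex.continuous_re.tendsto _).comp h

open Classical in
/-- coefficients outside the exceptional classes -/
noncomputable def aO (a : ℕ → ℝ) (S0 : Finset ℕ) (m : ℕ) : ℝ := if Outs S0 m then a m else 0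

open Classical in
/-- coefficients in the exceptional classes -/
noncomputable def aE (a : ℕ → ℝ) (S0 : Finset ℕ) (m : ℕ) : ℝ := if Outs S0 m then 0 else a m

lemma U_split3 (a : ℕ → ℝ) (hQ : ∀ q ∈ Q, Squarefree q ∧ q ∉ S0) (R : ℝ) (M : ℕ) :
    U a φ R M = U (aQ a Q) φ R M + U (aR (aO a S0) Q) φ R M + U (aE a S0) φ R M := by
  unfold U
  rw [← sum_add_distrib, ← sum_add_distrib]
  apply sum_congr rfl
  intro m _
  unfold aQ aR aO aE
  by_cases hm : m ∈ Q
  · have := sq_outs (hQ m hm).1 (hQ m hm).2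
    simp [hm, this]
  · by_cases ho : Outs S0 m <;> simp [hm, ho]

lemma M0 (hS : GoodS α S0) (hQ : ∀ q ∈ Q, Squarefree q ∧ q ∉ S0) :
    Tendsto (rm (fun n : ℕ => Wr σ φ Q (X + n * α))) atTop (𝓝 1) := by
  have h1 := mean_fam (α := α) (X := X) (EE Q) (ce σ φ) we (fun ε _ _ hz => Go_zero hS (we_Go hQ ε) hz)
  rw [Z0 (fun q hq => (hQ q hq).1)] at h1
  have h2 : (fun n : ℕ => ∑ x ∈ EE Q, ce σ φ x * e ((X + n * α) * we x)) =
      fun n : ℕ => ((Wr σ φ Q (X + n * α) : ℝ) : ℂ) := by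
    funext n
    exact (Wr_exp σ φ Q _).symm
  rw [h2] at h1
  exact HM_real h1

lemma M1 (hS : GoodS α S0) {M : ℕ} (hQ : ∀ q ∈ Q, Squarefree q ∧ q ∉ S0) (hQM : ∀ q ∈ Q, q ≤ M^2) :
    Tendsto (rm (fun n : ℕ => Wr σ φ Q (X + n * α) * U (aQ a Q) φ (X + n * α) M)) atTop
      (𝓝 (σ / 2 * ∑ q ∈ Q, a q)) := by
  have h1 := mean_fam (α := α) (X := X) (EE Q ×ˢ JS M) (fun x => ce σ φ x.1 * cf (aQ a Q) φ x.2)
    (fun x => we x.1 + fq x.2) (fun x hx hne hz => by
      rw [mem_product] at hx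
      have hy : x.2.1 ∈ Q := by
        by_contra hn
        apply hne
        rw [cf_aQ a hn, mul_zero]
      exact Go_zero hS (AddSubgroup.add_mem _ (we_Go hQ x.1)
        (fq_Go hx.2 (sq_outs (hQ _ hy).1 (hQ _ hy).2))) hz)
  rw [Z1 a (fun q hq => ⟨(hQ q hq).1, hQM q hq⟩)] at h1
  have h2 : (fun n : ℕ => ∑ x ∈ EE Q ×ˢ JS M, ce σ φ x.1 * cf (aQ a Q) φ x.2 * e ((X + n * α) * (we x.1 + fq x.2))) =
      fun n : ℕ => ((Wr σ φ Q (X + n * α) * U (aQ a Q) φ (X + n * α) M : ℝ) : ℂ) := by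
    funext n
    rw [Complex.ofReal_mul, Wr_exp, U_exp, sum_mul_sum, sum_product]
    apply sum_congr rfl
    intro ε _
    apply sum_congr rfl
    intro z _
    rw [mul_add, e_add]
    ring
  rw [h2] at h1
  have h3 := HM_real h1
  rw [Complex.ofReal_re] at h3
  exact h3

lemma M2 (hσ : |σ| ≤ 1) (hS : GoodS α S0) {M : ℕ} (hQ : ∀ q ∈ Q, Squarefree q ∧ q ∉ S0) (hQM : ∀ q ∈ Q, q ≤ M^2) :
    ∃ L : ℝ, L ≤ 3 / 2 * ∑ m ∈ Icc 1 (M^2), (a m)^2 ∧
    Tendsto (rm (fun n : ℕ => Wr σ φ Q (X + n * α) * (U (aR (aO a S0) Q) φ (X + n * α) M) ^ 2)) atTop (𝓝 L) := by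
  have h1 := mean_fam (α := α) (X := X) (EE Q ×ˢ (JS M ×ˢ JS M))
    (fun x => ce σ φ x.1 * (cf (aR (aO a S0) Q) φ x.2.1 * cf (aR (aO a S0) Q) φ x.2.2))
    (fun x => we x.1 + (fq x.2.1 + fq x.2.2)) (fun x hx hne hz => by
      rw [mem_product, mem_product] at hx
      have hO : ∀ y : ℕ × Bool, cf (aR (aO a S0) Q) φ y ≠ 0 → Outs S0 y.1 := by
        intro y hy
        by_contra hn
        apply hy
        unfold Pool.Agent.Y969.TM.cf aR aO
        rw [if_neg hn]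
        simp
      have h2 : cf (aR (aO a S0) Q) φ x.2.1 ≠ 0 := fun h => hne (by rw [h]; simp)
      have h3 : cf (aR (aO a S0) Q) φ x.2.2 ≠ 0 := fun h => hne (by rw [h]; simp)
      exact Go_zero hS (AddSubgroup.add_mem _ (we_Go hQ x.1)
        (AddSubgroup.add_mem _ (fq_Go hx.2.1 (hO _ h2)) (fq_Go hx.2.2 (hO _ h3)))) hz)
  have hz := Z2 (φ := φ) hσ (aO a S0) (Q := Q) (M := M) (fun q hq => ⟨(hQ q hq).1, hQM q hq⟩)
  have h2 : (fun n : ℕ => ∑ x ∈ EE Q ×ˢ (JS M ×ˢ JS M),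
      ce σ φ x.1 * (cf (aR (aO a S0) Q) φ x.2.1 * cf (aR (aO a S0) Q) φ x.2.2) *
        e ((X + n * α) * (we x.1 + (fq x.2.1 + fq x.2.2)))) =
      fun n : ℕ => ((Wr σ φ Q (X + n * α) * (U (aR (aO a S0) Q) φ (X + n * α) M) ^ 2 : ℝ) : ℂ) := by
    funext n
    rw [Complex.ofReal_mul, Complex.ofReal_pow, Wr_exp, U_exp, pow_two, sum_mul_sum, sum_mul, sum_product]
    apply sum_congr rfl
    intro ε _
    rw [mul_sum, sum_product]
    apply sum_congr rfl
    intro z _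
    rw [mul_sum]
    apply sum_congr rfl
    intro z' _
    rw [mul_add, e_add, mul_add, e_add]
    ring
  rw [h2] at h1
  refine ⟨_, ?_, HM_real h1⟩
  refine (Complex.re_le_norm _).trans (hz.trans ?_)
  apply mul_le_mul_of_nonneg_left _ (by norm_num)
  apply sum_le_sum
  intro m _
  unfold aO
  split_ifs
  · exact le_rfl
  · rw [zero_pow (by norm_num)]; positivity

lemma ptw {A W uQ uR : ℝ} (hσ : σ = 1 ∨ σ = -1) (hA : 1 ≤ A) (hW0 : 0 ≤ W) (h1 : |uQ| ≤ A) :
    σ * (W * uQ) ≤ A * (if A / 8 ≤ σ * (uQ + uR) then W else 0) + (3 * A / 16) * W + (4 / A) * (W * uR ^ 2) := by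
  have hσ1 : |σ| ≤ 1 := by rcases hσ with h | h <;> rw [h] <;> simp
  have hAp : 0 < A := by linarith
  have h3 : 0 ≤ (4 / A) * (W * uR ^ 2) := by positivity
  have h4 : 0 ≤ (3 * A / 16) * W := by positivity
  split_ifs with hy
  · have h5 : σ * uQ ≤ A := by
      refine (le_abs_self _).trans ?_
      rw [abs_mul]
      calc |σ| * |uQ| ≤ 1 * A := mul_le_mul hσ1 h1 (abs_nonneg _) zero_le_one
        _ = A := one_mul _
    have h6 : σ * (W * uQ) = W * (σ * uQ) := by ring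
    have h7 := mul_le_mul_of_nonneg_left h5 hW0
    linarith
  · rw [mul_zero, zero_add]
    push Not at hy
    have h6 : |σ * uR| ≤ |uR| := by
      rw [abs_mul]
      exact mul_le_of_le_one_left (abs_nonneg _) hσ1
    have h7 := (abs_le.mp h6).1
    have h8 : |uR| ≤ A / 16 + 4 / A * uR ^ 2 := by
      rw [← sq_abs uR]
      have e1 : A / 16 + 4 / A * |uR| ^ 2 - |uR| = (A - 8 * |uR|) ^ 2 / (16 * A) := by field_simp; ring
      have e2 : 0 ≤ (A - 8 * |uR|) ^ 2 / (16 * A) := by positivity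
      linarith
    have h9 : σ * uQ ≤ 3 * A / 16 + 4 / A * uR ^ 2 := by
      have : σ * (uQ + uR) = σ * uQ + σ * uR := by ring
      linarith
    have h10 : σ * (W * uQ) = W * (σ * uQ) := by ring
    have h11 := mul_le_mul_of_nonneg_left h9 hW0
    have h12 : W * (3 * A / 16 + 4 / A * uR ^ 2) = (3 * A / 16) * W + (4 / A) * (W * uR ^ 2) := by ring
    linarith

variable {Qp : ℕ → Prop} [DecidablePred Qp] {K : ℝ}

open Classical in
/-- the exceptional classes are bounded -/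
lemma aE_bdd (hK : 0 < K) (hc : ClsBd a Qp K) (S0 : Finset ℕ) : ∃ B : ℝ, 0 ≤ B ∧ ∀ (φ R : ℝ) (M : ℕ),
    |U (aE a S0) φ R M| ≤ B := by
  refine ⟨∑ s ∈ S0, K * (2 ^ s.primeFactors.card * (s:ℝ) ^ (-(3/4):ℝ)), sum_nonneg (fun s _ => by positivity), ?_⟩
  intro φ R M
  have h1 : |U (aE a S0) φ R M| ≤ ∑ m ∈ Icc 1 (M^2), |aE a S0 m| := by
    unfold U
    refine (abs_sum_le_sum_abs _ _).trans (sum_le_sum fun m _ => ?_)
    rw [abs_mul]
    exact mul_le_of_le_one_right (abs_nonneg _) (Real.abs_cos_le_one _)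
  refine h1.trans ?_
  have h4 : ∀ m ∈ Icc 1 (M^2), |aE a S0 m| ≤ ∑ s ∈ S0.filter Squarefree, if InC s m then |a m| else 0 := by
    intro m _
    have h0 : 0 ≤ ∑ s ∈ S0.filter Squarefree, if InC s m then |a m| else 0 :=
      sum_nonneg (fun i _ => by
        split_ifs
        · exact abs_nonneg _
        · exact le_rfl)
    by_cases ho : Outs S0 m
    · unfold aE
      rw [if_pos ho, abs_zero]
      exact h0
    · unfold aE
      rw [if_neg ho]
      unfold Outs at ho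
      push Not at ho
      obtain ⟨s, hs, hsf, hcs⟩ := ho
      have h5 := single_le_sum (s := S0.filter Squarefree) (f := fun s => if InC s m then |a m| else 0) (fun i _ => by
        split_ifs
        · exact abs_nonneg _
        · exact le_rfl) (mem_filter.mpr ⟨hs, hsf⟩)
      simp only [if_pos hcs] at h5
      exact h5
  refine (sum_le_sum h4).trans ?_
  rw [sum_comm]
  refine le_trans ?_ (sum_le_sum_of_subset_of_nonneg (filter_subset Squarefree S0) (fun s _ _ => by positivity))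
  apply sum_le_sum
  intro s hs
  rw [mem_filter] at hs
  rw [← sum_filter]
  have h6 := (hc s hs.2 ((Icc 1 (M^2)).filter (InC s)) (by
    intro m hm
    rw [mem_filter, mem_Icc] at hm
    exact ⟨hm.1.1, hm.2⟩)).1
  exact h6

/-- lower bound for the frequency of large values -/
theorem low1 {e' : ℕ → ℝ} (hσ : σ = 1 ∨ σ = -1) (hpos : ∀ m, 0 ≤ a m) (hS : GoodS α S0) (hA : Ap a φ e' α X)
    {B1 C3 : ℝ} (hB : ∀ (R : ℝ) (M : ℕ), |U (aE a S0) φ R M| ≤ B1)
    (hC3 : ∀ M : ℕ, 3 / 2 * ∑ m ∈ Icc 1 (M^2), (a m)^2 ≤ C3) (hQ : ∀ q ∈ Q, Squarefree q ∧ q ∉ S0)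
    (hA1 : 1 ≤ ∑ q ∈ Q, a q) (hA2 : 128 * C3 ≤ (∑ q ∈ Q, a q) ^ 2) :
    ∃ N0 : ℕ, ∀ N : ℕ, N0 ≤ N →
      (N:ℝ) / (16 * 2 ^ Q.card) ≤ (((range N).filter (fun n => (∑ q ∈ Q, a q) / 8 - B1 - 1 ≤ σ * e' n)).card : ℝ) := by
  classical
  have hσ1 : |σ| ≤ 1 := by rcases hσ with h | h <;> rw [h] <;> simp
  have hσ2 : σ * σ = 1 := by rcases hσ with h | h <;> rw [h] <;> norm_num
  set A := ∑ q ∈ Q, a q with hAd
  have hAp : 0 < A := by linarith
  have h2Q : (0:ℝ) < 2 ^ Q.card := by positivity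
  obtain ⟨M1', hM⟩ := hA (1 / (16 * 2 ^ Q.card)) (by positivity)
  obtain ⟨m0, hm0⟩ : ∃ m0 : ℕ, ∀ q ∈ Q, q ≤ m0 := ⟨Q.sup id, fun q hq => le_sup (f := id) hq⟩
  set M := max M1' (max m0 1) with hMd
  have hQM : ∀ q ∈ Q, q ≤ M^2 := by
    intro q hq
    have h1 := hm0 q hq
    have h2 : m0 ≤ M := (le_max_left _ _).trans (le_max_right _ _)
    have h3 : 1 ≤ M := (le_max_right _ _).trans (le_max_right _ _)
    nlinarith
  obtain ⟨N1, hN1⟩ := hM M (le_max_left _ _)
  have t0 := M0 (σ := σ) (φ := φ) (X := X) hS hQ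
  have t1 := M1 (a := a) (σ := σ) (φ := φ) (X := X) hS hQ hQM
  obtain ⟨L, hL, t2⟩ := M2 (a := a) (φ := φ) (X := X) hσ1 hS hQ hQM
  have hLC : L ≤ C3 := hL.trans (hC3 M)
  set W : ℕ → ℝ := fun n => Wr σ φ Q (X + n * α) with hW
  set uQ : ℕ → ℝ := fun n => U (aQ a Q) φ (X + n * α) M with huQ
  set uR : ℕ → ℝ := fun n => U (aR (aO a S0) Q) φ (X + n * α) M with huR
  set f : ℕ → ℝ := fun n => if A / 8 ≤ σ * (uQ n + uR n) then W n else 0 with hf
  have hcomb : Tendsto (fun N => σ * rm (fun n => W n * uQ n) N - (3 * A / 16) * rm W N -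
      (4 / A) * rm (fun n => W n * (uR n) ^ 2) N) atTop (𝓝 (σ * (σ / 2 * A) - (3 * A / 16) * 1 - (4 / A) * L)) :=
    ((t1.const_mul σ).sub (t0.const_mul _)).sub (t2.const_mul _)
  have hlow : A / 4 < σ * (σ / 2 * A) - (3 * A / 16) * 1 - (4 / A) * L := by
    have e1 : σ * (σ / 2 * A) = A / 2 := by
      calc σ * (σ / 2 * A) = (σ * σ) * (A / 2) := by ring
        _ = _ := by rw [hσ2, one_mul]
    have e2 : (4 / A) * L ≤ A / 32 := by
      rw [div_mul_eq_mul_div, div_le_iff₀ hAp]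
      nlinarith
    rw [e1]
    linarith
  obtain ⟨N2, hN2⟩ := eventually_atTop.mp (hcomb.eventually (lt_mem_nhds hlow))
  refine ⟨max (max N1 N2) 1, fun N hN => ?_⟩
  have hNN1 : N1 ≤ N := (le_max_left _ _).trans ((le_max_left _ _).trans hN)
  have hNN2 : N2 ≤ N := (le_max_right _ _).trans ((le_max_left _ _).trans hN)
  have hN0 : (0:ℝ) < N := by
    have : 1 ≤ N := (le_max_right _ _).trans hN
    exact_mod_cast this
  have h1 := hN2 N hNN2
  have hmain : σ * rm (fun n => W n * uQ n) N ≤ A * rm f N + (3 * A / 16) * rm W N +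
      (4 / A) * rm (fun n => W n * (uR n) ^ 2) N := by
    rw [← rm_mul, ← rm_mul, ← rm_mul, ← rm_mul, ← rm_add, ← rm_add]
    apply rm_mono
    intro n
    exact ptw hσ hA1 (Wr_nonneg hσ1 _) (UQ_le hpos (fun q hq => ⟨(hQ q hq).1, hQM q hq⟩) _)
  have h2 : 1 / 4 < rm f N := by
    have : A * (1/4) < A * rm f N := by linarith
    exact lt_of_mul_lt_mul_left this hAp.le
  -- number of large values of the polynomial
  set G := (range N).filter (fun n => A / 8 ≤ σ * (uQ n + uR n)) with hG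
  have h3 : rm f N * N ≤ G.card * 2 ^ Q.card := by
    unfold rm
    rw [div_mul_cancel₀ _ hN0.ne']
    have : ∑ n ∈ range N, f n = ∑ n ∈ G, W n := by
      rw [hG, sum_filter]
    rw [this, ← nsmul_eq_mul]
    exact sum_le_card_nsmul _ _ _ (fun n _ => Wr_le hσ1 _)
  have h4 : (N:ℝ) / (4 * 2 ^ Q.card) ≤ G.card := by
    rw [div_le_iff₀ (by positivity)]
    nlinarith
  -- the bad set
  set D := (range N).filter (fun n => 1 < |e' n - U a φ (X + n * α) M|) with hD
  have h5 : (D.card : ℝ) ≤ N / (16 * 2 ^ Q.card) := by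
    have h6 := hN1 N hNN1
    unfold rm at h6
    rw [div_le_iff₀ hN0] at h6
    have h7 : (D.card : ℝ) ≤ ∑ n ∈ range N, (e' n - U a φ (X + n * α) M)^2 := by
      calc (D.card : ℝ) = ∑ n ∈ D, (1:ℝ) := by simp
        _ ≤ ∑ n ∈ D, (e' n - U a φ (X + n * α) M)^2 := by
            apply sum_le_sum
            intro n hn
            rw [hD, mem_filter] at hn
            rw [← sq_abs]
            have := hn.2
            nlinarith
        _ ≤ _ := sum_le_sum_of_subset_of_nonneg (filter_subset _ _) (fun n _ _ => sq_nonneg _)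
    calc (D.card : ℝ) ≤ 1 / (16 * 2 ^ Q.card) * N := h7.trans h6
      _ = _ := by ring
  have hsub : G ⊆ (range N).filter (fun n => A / 8 - B1 - 1 ≤ σ * e' n) ∪ D := by
    intro n hn
    rw [hG, mem_filter] at hn
    rw [mem_union, mem_filter]
    by_cases hb : 1 < |e' n - U a φ (X + n * α) M|
    · right
      rw [hD, mem_filter]
      exact ⟨hn.1, hb⟩
    · left
      refine ⟨hn.1, ?_⟩
      push Not at hb
      have g1 := hB (X + n * α) M
      have g2 : U a φ (X + n * α) M = uQ n + uR n + U (aE a S0) φ (X + n * α) M := U_split3 a hQ _ M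
      have g3 : σ * e' n = σ * (uQ n + uR n) + σ * U (aE a S0) φ (X + n * α) M + σ * (e' n - U a φ (X + n * α) M) := by
        rw [g2]; ring
      have g4 : |σ * U (aE a S0) φ (X + n * α) M| ≤ B1 := by
        rw [abs_mul]
        calc |σ| * |U (aE a S0) φ (X + n * α) M| ≤ 1 * B1 := mul_le_mul hσ1 g1 (abs_nonneg _) zero_le_one
          _ = B1 := one_mul _
      have g5 : |σ * (e' n - U a φ (X + n * α) M)| ≤ 1 := by
        rw [abs_mul]
        calc |σ| * |e' n - U a φ (X + n * α) M| ≤ 1 * 1 := mul_le_mul hσ1 hb (abs_nonneg _) zero_le_one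
          _ = 1 := one_mul _
      have g6 := (abs_le.mp g4).1
      have g7 := (abs_le.mp g5).1
      have g8 := hn.2
      linarith
  have h8 : (G.card : ℝ) ≤ (((range N).filter (fun n => A / 8 - B1 - 1 ≤ σ * e' n)).card : ℝ) + D.card := by
    have := (card_le_card hsub).trans (card_union_le _ _)
    exact_mod_cast this
  have h9 : (N:ℝ) / (4 * 2 ^ Q.card) - N / (16 * 2 ^ Q.card) = 3 * (N / (16 * 2 ^ Q.card)) := by
    field_simp; ring
  have h10 : 0 ≤ (N:ℝ) / (16 * 2 ^ Q.card) := by positivity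
  linarith

end Pool.Agent.NH14.TL
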