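import Mathlib
import Pool.Agent.NH14.TL.T2
import Pool.Agent.NH14.LI.N15
import Pool.Agent.H383.Full

/-! The tails of the limit law: matching upper and lower bounds. -/

set_option autoImplicit false

open MeasureTheory Filter Topology
open Pool.Agent.H383.Gen
open Pool.Agent.H383.Gauss (GoodS InC Gr exists_S)
open Pool.Agent.H383.AP
open Pool.Agent.NH14.LI
open Pool.Agent.H452R2

namespace Pool.Agent.NH14.TL

/-- the size of the logarithm of the tails -/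
noncomputable def LV (γ V : ℝ) : ℝ := V ^ 4 * (Real.log V) ^ (-(4 * γ))

lemma log_rpow_small (g : ℝ) {c : ℝ} (hc : 0 < c) : ∀ᶠ V : ℝ in atTop, (Real.log V) ^ g ≤ c * V := by
  have h := (isLittleO_log_rpow_rpow_atTop (s := (1:ℝ)) g (by norm_num)).bound (c := c) hc
  filter_upwards [h, eventually_ge_atTop (1:ℝ)] with V hV hV1
  rw [Real.norm_of_nonneg (Real.rpow_nonneg (Real.log_nonneg hV1) _),
    Real.norm_of_nonneg (Real.rpow_nonneg (by linarith) _), Real.rpow_one] at hV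
  exact hV

lemma LV_eq {γ V : ℝ} (hV : 1 < V) : LV γ V = V ^ 4 / (Real.log V) ^ (4 * γ) := by
  unfold LV
  rw [Real.rpow_neg (Real.log_pos hV).le, div_eq_mul_inv]

lemma LV_pos {γ V : ℝ} (hV : 1 < V) : 0 < LV γ V := by
  have := Real.log_pos hV
  unfold LV
  positivity

/-- `LV` is at least a cube -/
lemma LV_cube (γ : ℝ) {c : ℝ} (hc : 0 < c) : ∀ᶠ V : ℝ in atTop, V ^ 3 ≤ c * LV γ V := by
  filter_upwards [log_rpow_small (4 * γ) hc, eventually_gt_atTop (1:ℝ)] with V h1 h2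
  have hl : 0 < (Real.log V) ^ (4 * γ) := Real.rpow_pos_of_pos (Real.log_pos h2) _
  rw [LV_eq h2, mul_div_assoc', le_div_iff₀ hl]
  have h3 : 0 < V ^ 3 := by positivity
  nlinarith

lemma LV_large (γ : ℝ) (B : ℝ) : ∀ᶠ V : ℝ in atTop, B ≤ LV γ V := by
  filter_upwards [LV_cube γ one_pos, eventually_ge_atTop (max B 1)] with V h1 h2
  have h3 : 1 ≤ V := (le_max_right _ _).trans h2
  have h4 : B ≤ V := (le_max_left _ _).trans h2
  have h5 : V ≤ V ^ 3 := by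
    calc V = V ^ 1 := (pow_one V).symm
      _ ≤ V ^ 3 := pow_le_pow_right₀ h3 (by norm_num)
  linarith

variable {α X : ℝ} {S0 : Finset ℕ} {σ φ : ℝ} {a : ℕ → ℝ} {e' : ℕ → ℝ} {μ : ProbabilityMeasure ℝ}

open Classical in
theorem low2 (hpos : ∀ m, 0 ≤ a m) (hS : GoodS α S0) (hA : Ap a φ e' α X)
    {B1 C3 : ℝ} (hB : ∀ (R : ℝ) (M : ℕ), |U (aE a S0) φ R M| ≤ B1)
    (hC3 : ∀ M : ℕ, 3 / 2 * ∑ m ∈ Finset.Icc 1 (M^2), (a m)^2 ≤ C3)
    {γ c1 : ℝ} (hγ : 0 ≤ γ) (hc1 : 0 < c1) (hs : HSet a γ c1) :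
    ∃ V0 : ℝ, 2 ≤ V0 ∧ ∀ V : ℝ, V0 ≤ V → ∀ σ : ℝ, (σ = 1 ∨ σ = -1) → ∃ N0 : ℕ, ∀ N : ℕ, N0 ≤ N →
      Real.exp (-(2 * (32 / c1) ^ 4 * LV γ V)) * N ≤ (((Finset.range N).filter (fun n => V < σ * e' n)).card : ℝ) := by
  obtain ⟨K0, hK0⟩ := hs
  set D : ℝ := (32 / c1) ^ 4 with hD
  have hD0 : 0 < D := by positivity
  set A0 : ℝ := ∑ q ∈ S0, a q with hA0
  have hA00 : 0 ≤ A0 := Finset.sum_nonneg fun q _ => hpos q
  have hC30 : 0 ≤ C3 := le_trans (by positivity) (hC3 0)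
  have hB1 : 0 ≤ B1 := le_trans (abs_nonneg _) (hB 0 0)
  have hev : ∀ᶠ V : ℝ in atTop, V ^ 3 ≤ D * LV γ V ∧ max K0 3 ≤ D * LV γ V ∧
      2 + A0 + B1 + 128 * C3 ≤ V := by
    have h2 := LV_large γ (max K0 3 / D)
    filter_upwards [LV_cube γ hD0, h2, eventually_ge_atTop (2 + A0 + B1 + 128 * C3)] with V h1 h2 h3
    refine ⟨h1, ?_, h3⟩
    rw [div_le_iff₀ hD0] at h2
    linarith
  obtain ⟨V0, hV0⟩ := eventually_atTop.mp hev
  refine ⟨max V0 2, le_max_right _ _, ?_⟩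
  intro V hV σ hσ
  have hV2 : 2 ≤ V := (le_max_right _ _).trans hV
  obtain ⟨g1, g2, g3⟩ := hV0 V ((le_max_left _ _).trans hV)
  have hV1 : 1 < V := by linarith
  have hVp : 0 < V := by linarith
  have hlV : 0 < Real.log V := Real.log_pos hV1
  set K := D * LV γ V with hK
  have hK3 : 3 ≤ K := (le_max_right _ _).trans g2
  obtain ⟨𝓜, hM1, hM2, hM3⟩ := hK0 K ((le_max_left _ _).trans g2)
  have hlogK : Real.log V ≤ Real.log K := by
    apply Real.log_le_log hVp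
    refine le_trans ?_ g1
    calc V = V ^ 1 := (pow_one V).symm
      _ ≤ V ^ 3 := pow_le_pow_right₀ hV1.le (by norm_num)
  have hsum : 32 * V ≤ ∑ m ∈ 𝓜, a m := by
    refine le_trans ?_ hM3
    have e1 : K ^ (1/4:ℝ) = (32 / c1) * (V * (Real.log V) ^ (-γ)) := by
      rw [hK, hD]
      unfold LV
      rw [Real.mul_rpow (by positivity) (by positivity), Real.mul_rpow (by positivity) (by positivity),
        ← Real.rpow_natCast, ← Real.rpow_mul (by positivity), ← Real.rpow_natCast, ← Real.rpow_mul hVp.le,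
        ← Real.rpow_mul hlV.le]
      have e2 : ((4:ℕ):ℝ) * (1/4) = 1 := by norm_num
      have e3 : -(4 * γ) * (1/4) = -γ := by ring
      rw [e2, e3, Real.rpow_one, Real.rpow_one]
    have e2 : (Real.log V) ^ γ ≤ (Real.log K) ^ γ := Real.rpow_le_rpow hlV.le hlogK hγ
    have e3 : (Real.log V) ^ (-γ) * (Real.log V) ^ γ = 1 := by
      rw [← Real.rpow_add hlV]; simp
    calc 32 * V = c1 * ((32 / c1) * V) * ((Real.log V) ^ (-γ) * (Real.log V) ^ γ) := by
          rw [e3]; field_simp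
      _ = c1 * ((32 / c1) * (V * (Real.log V) ^ (-γ))) * (Real.log V) ^ γ := by ring
      _ ≤ c1 * ((32 / c1) * (V * (Real.log V) ^ (-γ))) * (Real.log K) ^ γ := by gcongr
      _ = c1 * K ^ (1/4:ℝ) * (Real.log K) ^ γ := by rw [e1]
  set Q := 𝓜 \ S0 with hQ
  have hQs : ∀ q ∈ Q, Squarefree q ∧ q ∉ S0 := by
    intro q hq
    rw [hQ, Finset.mem_sdiff] at hq
    exact ⟨(hM2 q hq.1).1, hq.2⟩
  have hAQ : 31 * V ≤ ∑ q ∈ Q, a q := by
    have h1 : ∑ m ∈ 𝓜, a m ≤ ∑ q ∈ Q, a q + A0 := by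
      have h2 : 𝓜 ⊆ Q ∪ S0 := by
        intro m hm
        rw [hQ, Finset.mem_union, Finset.mem_sdiff]
        tauto
      calc ∑ m ∈ 𝓜, a m ≤ ∑ m ∈ Q ∪ S0, a m := Finset.sum_le_sum_of_subset_of_nonneg h2 (fun m _ _ => hpos m)
        _ ≤ ∑ m ∈ Q ∪ S0, a m + ∑ m ∈ Q ∩ S0, a m := by
            have := Finset.sum_nonneg (s := Q ∩ S0) (fun m _ => hpos m)
            linarith
        _ = _ := Finset.sum_union_inter
    linarith
  obtain ⟨N0, hN0⟩ := low1 hσ hpos hS hA hB hC3 hQs (by linarith) (by nlinarith)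
  refine ⟨N0, fun N hN => ?_⟩
  have h1 := hN0 N hN
  have h2 : (2:ℝ) ^ Q.card ≤ Real.exp K := by
    have e1 : (2:ℝ) ^ Q.card = Real.exp (Q.card * Real.log 2) := by
      rw [Real.exp_nat_mul, Real.exp_log (by norm_num)]
    rw [e1]
    apply Real.exp_le_exp.mpr
    have e2 : (Q.card : ℝ) ≤ K := by
      have : (Q.card : ℝ) ≤ 𝓜.card := by exact_mod_cast Finset.card_le_card Finset.sdiff_subset
      linarith
    have e3 := Real.log_two_lt_d9
    have e4 : 0 ≤ Real.log 2 := Real.log_nonneg (by norm_num)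
    have e5 : (0:ℝ) ≤ Q.card := Nat.cast_nonneg _
    nlinarith
  have h3 : 16 ≤ Real.exp K := by
    have e1 : Real.exp 3 ≤ Real.exp K := Real.exp_le_exp.mpr hK3
    have e2 : Real.exp 3 = Real.exp 1 ^ 3 := by rw [← Real.exp_nat_mul]; norm_num
    have e3 := Real.exp_one_gt_d9
    have e4 : (2.7:ℝ) ^ 3 ≤ Real.exp 1 ^ 3 := pow_le_pow_left₀ (by norm_num) (by linarith) 3
    norm_num at e4
    linarith
  have h4 : Real.exp (-(2 * D * LV γ V)) * N ≤ N / (16 * 2 ^ Q.card) := by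
    have e1 : Real.exp (-(2 * D * LV γ V)) = 1 / (Real.exp K * Real.exp K) := by
      rw [← Real.exp_add, one_div, ← Real.exp_neg]
      congr 1
      rw [hK]; ring
    rw [e1, div_mul_eq_mul_div, one_mul]
    apply div_le_div_of_nonneg_left (Nat.cast_nonneg _) (by positivity)
    have := Real.exp_pos K
    exact mul_le_mul h3 h2 (by positivity) this.le
  refine h4.trans (h1.trans ?_)
  have hsub : (Finset.range N).filter (fun n => (∑ q ∈ Q, a q) / 8 - B1 - 1 ≤ σ * e' n) ⊆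
      (Finset.range N).filter (fun n => V < σ * e' n) := by
    intro n hn
    rw [Finset.mem_filter] at hn ⊢
    refine ⟨hn.1, ?_⟩
    linarith [hn.2]
  exact_mod_cast Finset.card_le_card hsub

variable {Qp : ℕ → Prop} [DecidablePred Qp] {K : ℝ}

/-- upper bound for the tails of the limit law -/
theorem up2 (hK : 0 < K) (hc : ClsBd a Qp K)
    {b : ℝ} (hb : 0 ≤ b) (hB : 1 ≤ (2:ℝ)^(4/3:ℝ) * b) (hps : PS Qp b) :
    ∃ c : ℝ, 0 < c ∧ ∀ (φ α X : ℝ) (S0 : Finset ℕ) (e' : ℕ → ℝ) (μ : ProbabilityMeasure ℝ), GoodS α S0 →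
      Ap a φ e' α X → Law e' μ → ∃ V0 : ℝ, 2 ≤ V0 ∧ ∀ V : ℝ, V0 ≤ V →
      (μ : Measure ℝ).real {x | V ≤ |x|} ≤ (1/2) * Real.exp (-(c * LV (3/4 * ((2:ℝ)^(4/3:ℝ) * b - 1)) V)) := by
  classical
  set g : ℝ := (2:ℝ)^(4/3:ℝ) * b - 1 with hg
  have hg0 : 0 ≤ g := by rw [hg]; linarith
  set γ : ℝ := 3/4 * g with hγ
  have h4γ : 4 * γ = 3 * g := by rw [hγ]; ring
  set K1 := max K 1 with hK1
  have hK1p : 0 < K1 := by rw [hK1]; positivity
  have hK11 : 1 ≤ K1 := le_max_right _ _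
  have hc1 : ClsBd a Qp K1 := hc.mono (le_max_left _ _)
  obtain ⟨C1, hC1, hS1⟩ := main_sum (Qp := Qp) hb hB hps
  rw [← hg] at hS1
  set C2 : ℝ := C1 * (K1 ^ (4/3:ℝ) * 4 ^ g) with hC2
  have hC2p : 0 < C2 := by positivity
  set κ : ℝ := min 1 ((1 / (4 * C2)) ^ 3) with hκ
  have hκ0 : 0 < κ := lt_min one_pos (by positivity)
  have hκ1 : κ ≤ 1 := min_le_left _ _
  have hκ3 : C2 * κ ^ (1/3:ℝ) ≤ 1/4 := by
    have e1 : κ ^ (1/3:ℝ) ≤ ((1 / (4 * C2)) ^ 3) ^ (1/3:ℝ) := Real.rpow_le_rpow hκ0.le (min_le_right _ _) (by norm_num)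
    have e2 : ((1 / (4 * C2)) ^ 3) ^ (1/3:ℝ) = 1 / (4 * C2) := by
      rw [← Real.rpow_natCast, ← Real.rpow_mul (by positivity)]
      norm_num
    rw [e2] at e1
    calc C2 * κ ^ (1/3:ℝ) ≤ C2 * (1 / (4 * C2)) := by gcongr
      _ = 1/4 := by field_simp
  refine ⟨κ / 4, by positivity, ?_⟩
  intro φ α X S0 e' μ hS hA h
  obtain ⟨B0, hB0, hm⟩ := mgf2 (a := a) (φ := φ) (X := X) hS hK1p hc1
  -- eventual conditions
  have hev : ∀ᶠ V : ℝ in atTop, 2 * V ≤ κ * LV γ V ∧ (Real.log V) ^ (4 * γ) * 1 ≤ κ * V ∧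
      κ * K1 ≤ V ∧ 4 * B0 ≤ V ∧ 2 ≤ V ∧ 1 ≤ Real.log V ∧ 4 / κ * 2 ≤ LV γ V := by
    have h1 : ∀ᶠ V : ℝ in atTop, V ^ 3 ≤ (κ/2) * LV γ V := LV_cube γ (by positivity)
    filter_upwards [h1, log_rpow_small (4 * γ) hκ0, eventually_ge_atTop (κ * K1), eventually_ge_atTop (4 * B0),
      eventually_ge_atTop (2:ℝ), Real.tendsto_log_atTop.eventually_ge_atTop 1, LV_large γ (4 / κ * 2)] with V a1 a2 a3 a4 a5 a6 a7
    refine ⟨?_, by linarith, a3, a4, a5, a6, a7⟩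
    have : V ≤ V ^ 3 := by
      calc V = V ^ 1 := (pow_one V).symm
        _ ≤ V ^ 3 := pow_le_pow_right₀ (by linarith) (by norm_num)
    linarith
  obtain ⟨V0, hV0⟩ := eventually_atTop.mp hev
  refine ⟨max V0 2, le_max_right _ _, ?_⟩
  intro V hV
  obtain ⟨a1, a2, a3, a4, a5, a6, a7⟩ := hV0 V ((le_max_left _ _).trans hV)
  have hV1 : 1 < V := by linarith
  have hVp : 0 < V := by linarith
  have hlV : 0 < Real.log V := by linarith
  have hLV := LV_pos (γ := γ) hV1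
  set l : ℝ := κ * LV γ V / V with hl
  have hl0 : 0 < l := by positivity
  have hl2 : 2 ≤ l := by
    rw [hl, le_div_iff₀ hVp]; exact a1
  have hlV' : l * V = κ * LV γ V := by rw [hl]; field_simp
  have hlK : l * K1 ≤ V ^ 4 := by
    have e1 : LV γ V ≤ V ^ 4 := by
      rw [LV_eq hV1]
      apply div_le_self (by positivity)
      exact Real.one_le_rpow a6 (by positivity)
    have e2 : l ≤ κ * V ^ 3 := by
      rw [hl, div_le_iff₀ hVp]
      calc κ * LV γ V ≤ κ * V ^ 4 := by gcongr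
        _ = κ * V ^ 3 * V := by ring
    calc l * K1 ≤ κ * V ^ 3 * K1 := by gcongr
      _ = (κ * K1) * V ^ 3 := by ring
      _ ≤ V * V ^ 3 := by gcongr
      _ = V ^ 4 := by ring
  have hlogK : Real.log (l * K1) ≤ 4 * Real.log V := by
    have e1 := Real.log_le_log (by positivity) hlK
    rw [Real.log_pow] at e1
    exact_mod_cast e1
  have hlK2 : 2 ≤ l * K1 := by nlinarith
  have hlogK0 : 0 ≤ Real.log (l * K1) := Real.log_nonneg (by linarith)
  have hsum : ∀ M : ℕ, ∑ s ∈ TQ Qp (M^2), H (us (l * K1) s) ≤ κ * LV γ V / 4 := by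
    intro M
    refine (hS1 (l * K1) hlK2 (M^2)).trans ?_
    have e1 : (l * K1) ^ (4/3:ℝ) = K1 ^ (4/3:ℝ) * (κ ^ (4/3:ℝ) * (V ^ (4:ℝ) * (Real.log V) ^ (-(16/3 * γ)))) := by
      have : l = κ * (V ^ (3:ℝ) * (Real.log V) ^ (-(4 * γ))) := by
        rw [hl]
        unfold LV
        rw [div_eq_iff hVp.ne']
        have : V ^ (3:ℝ) * V = V ^ 4 := by
          conv_lhs => rw [← Real.rpow_one V, ← Real.rpow_mul hVp.le, ← Real.rpow_add hVp]
          rw [← Real.rpow_natCast]; norm_num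
        rw [← this]; ring
      rw [this, mul_comm, Real.mul_rpow (by positivity) (by positivity), Real.mul_rpow hκ0.le (by positivity),
        Real.mul_rpow (by positivity) (by positivity), ← Real.rpow_mul hVp.le, ← Real.rpow_mul hlV.le]
      congr 4
      · norm_num
      · ring
    have e2 : (Real.log (l * K1)) ^ g ≤ 4 ^ g * (Real.log V) ^ g := by
      rw [← Real.mul_rpow (by norm_num) hlV.le]
      exact Real.rpow_le_rpow hlogK0 hlogK hg0
    have e3 : (Real.log V) ^ (-(16/3 * γ)) * (Real.log V) ^ g = (Real.log V) ^ (-(4 * γ)) := by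
      rw [← Real.rpow_add hlV]
      congr 1
      rw [hγ]; ring
    have e4 : κ ^ (4/3:ℝ) = κ * κ ^ (1/3:ℝ) := by
      conv_rhs => rw [← Real.rpow_one κ, ← Real.rpow_mul hκ0.le, ← Real.rpow_add hκ0]
      norm_num
    have e5 : V ^ (4:ℝ) = V ^ 4 := by rw [← Real.rpow_natCast]; norm_num
    calc C1 * ((l * K1) ^ (4/3:ℝ) * (Real.log (l * K1)) ^ g)
        ≤ C1 * ((K1 ^ (4/3:ℝ) * (κ ^ (4/3:ℝ) * (V ^ (4:ℝ) * (Real.log V) ^ (-(16/3 * γ))))) * (4 ^ g * (Real.log V) ^ g)) := by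
          rw [e1]; gcongr
      _ = C2 * κ ^ (4/3:ℝ) * (V ^ (4:ℝ) * ((Real.log V) ^ (-(16/3 * γ)) * (Real.log V) ^ g)) := by rw [hC2]; ring
      _ = (C2 * κ ^ (1/3:ℝ)) * (κ * LV γ V) := by
          rw [e3, e4, e5]; unfold LV; ring
      _ ≤ (1/4) * (κ * LV γ V) := by gcongr
      _ = _ := by ring
  have hhalf : ∀ l' : ℝ, |l'| = l → (μ : Measure ℝ).real {x | |l'| * V ≤ l' * x} ≤ Real.exp (-(κ * LV γ V / 2)) := by
    intro l' hl'
    have h1 := chernoff hA h (l := l') (K := V) (B := Real.exp (B0 * l + κ * LV γ V / 4)) hVp.le (fun M => by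
      refine (hm l' M).trans ?_
      rw [hl']
      apply Real.exp_le_exp.mpr
      linarith [hsum M])
    refine h1.trans ?_
    rw [← Real.exp_add, hl']
    apply Real.exp_le_exp.mpr
    have : B0 * l ≤ (V / 4) * l := by
      apply mul_le_mul_of_nonneg_right _ hl0.le
      linarith
    have e7 : (V / 4) * l = κ * LV γ V / 4 := by rw [← hlV']; ring
    rw [e7] at this
    rw [hlV']
    linarith
  have hsub : {x : ℝ | V ≤ |x|} ⊆ {x | |l| * V ≤ l * x} ∪ {x | |(-l)| * V ≤ (-l) * x} := by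
    intro x hx
    simp only [Set.mem_ofPred_eq, Set.mem_union] at hx ⊢
    rw [abs_neg, abs_of_pos hl0]
    rcases le_abs.mp hx with h | h
    · left; exact mul_le_mul_of_nonneg_left h hl0.le
    · right
      have := mul_le_mul_of_nonneg_left h hl0.le
      linarith
  have h2 := hhalf l (abs_of_pos hl0)
  have h3 := hhalf (-l) (by rw [abs_neg, abs_of_pos hl0])
  have h4 : (μ : Measure ℝ).real {x | V ≤ |x|} ≤ 2 * Real.exp (-(κ * LV γ V / 2)) := by
    refine (measureReal_mono hsub).trans ((measureReal_union_le _ _).trans ?_)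
    linarith
  refine h4.trans ?_
  have h5 : Real.exp (-(κ * LV γ V / 2)) = Real.exp (-(κ / 4 * LV γ V)) * Real.exp (-(κ / 4 * LV γ V)) := by
    rw [← Real.exp_add]; congr 1; ring
  have h6 : Real.exp (-(κ / 4 * LV γ V)) ≤ 1/4 := by
    have e1 : 2 ≤ κ / 4 * LV γ V := by
      rw [div_mul_eq_mul_div, div_le_iff₀ hκ0] at a7
      linarith
    have e2 : Real.exp (-(κ / 4 * LV γ V)) ≤ Real.exp (-2) := Real.exp_le_exp.mpr (by linarith)
    have e3 : Real.exp (-2) ≤ 1/4 := by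
      rw [Real.exp_neg, show (2:ℝ) = 1 + 1 by norm_num, Real.exp_add]
      have := Real.exp_one_gt_d9
      rw [inv_le_comm₀ (by positivity) (by norm_num)]
      nlinarith
    linarith
  rw [h5]
  have h7 := Real.exp_pos (-(κ / 4 * LV γ V))
  have h8 := mul_le_mul_of_nonneg_left h6 h7.le
  linarith

end Pool.Agent.NH14.TL
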