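import Mathlib
import Pool.Agent.NH14.TL.T3

/-! The frequency of large values in short windows. -/

set_option autoImplicit false

open MeasureTheory Filter Topology
open Pool.Agent.H383.Gen
open Pool.Agent.H383.Gauss (GoodS InC Gr exists_S)
open Pool.Agent.H383.AP
open Pool.Agent.NH14.LI
open Pool.Agent.H452R2

namespace Pool.Agent.NH14.TL

variable {α X : ℝ} {φ : ℝ} {a : ℕ → ℝ} {e : ℕ → ℝ} {μ : ProbabilityMeasure ℝ}

open Classical in
lemma tail_low (hW : ∀ ε : ℝ, 0 < ε → Win.ApW (Win.Adw ε) a φ e α X) (h : Law2 e μ)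
    (hna : ∀ x : ℝ, (μ : Measure ℝ) {x} = 0) {p V : ℝ}
    (hom : ∀ σ : ℝ, (σ = 1 ∨ σ = -1) → ∃ N0 : ℕ, ∀ N : ℕ, N0 ≤ N →
      p * N ≤ (((Finset.range N).filter (fun n => V < σ * e n)).card : ℝ)) :
    p ≤ 1 - (μ : Measure ℝ).real (Set.Iic V) ∧ p ≤ (μ : Measure ℝ).real (Set.Iic (-V)) := by
  have hwc := wcdf (hW 1 one_pos).wb (Win.Adw_zero one_pos) h hna
  constructor
  · apply le_of_forall_pos_le_add
    intro η hη
    obtain ⟨N1, hN1⟩ := hwc η hη
    obtain ⟨N2, hN2⟩ := hom 1 (Or.inl rfl)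
    set N := max 1 (max N1 N2) with hNd
    have hN0 : (0:ℝ) < N := by
      have : 1 ≤ N := le_max_left _ _
      exact_mod_cast this
    have h1 := (hN1 N (by omega) 0 (Win.Adw_zero one_pos N) V).1
    have h2 := hN2 N (by omega)
    simp only [zero_add] at h1
    simp only [one_mul] at h2
    have h3 : (((Finset.range N).filter (fun n => e n ≤ V)).card : ℝ) +
        (((Finset.range N).filter (fun n => V < e n)).card : ℝ) = N := by
      have := Finset.card_filter_add_card_filter_not (s := Finset.range N) (fun n => e n ≤ V)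
      rw [Finset.card_range] at this
      simp only [not_le] at this
      exact_mod_cast this
    have h4 : p ≤ (((Finset.range N).filter (fun n => V < e n)).card : ℝ) / N := by
      rw [le_div_iff₀ hN0]; exact h2
    have h5 : (((Finset.range N).filter (fun n => e n ≤ V)).card : ℝ) / N +
        (((Finset.range N).filter (fun n => V < e n)).card : ℝ) / N = 1 := by
      rw [← add_div, h3, div_self hN0.ne']
    have h6 := (abs_le.mp h1).1
    linarith
  · apply le_of_forall_pos_le_add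
    intro η hη
    obtain ⟨N1, hN1⟩ := hwc η hη
    obtain ⟨N2, hN2⟩ := hom (-1) (Or.inr rfl)
    set N := max 1 (max N1 N2) with hNd
    have hN0 : (0:ℝ) < N := by
      have : 1 ≤ N := le_max_left _ _
      exact_mod_cast this
    have h1 := (hN1 N (by omega) 0 (Win.Adw_zero one_pos N) (-V)).2
    have h2 := hN2 N (by omega)
    simp only [zero_add] at h1
    have h3 : (Finset.range N).filter (fun n => V < -1 * e n) = (Finset.range N).filter (fun n => e n < -V) := by
      apply Finset.filter_congr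
      intro n _
      constructor <;> intro hh <;> linarith
    rw [h3] at h2
    have h4 : p ≤ (((Finset.range N).filter (fun n => e n < -V)).card : ℝ) / N := by
      rw [le_div_iff₀ hN0]; exact h2
    have h6 := (abs_le.mp h1).2
    linarith

open Classical in
/-- transfer of the tails to short windows -/
theorem win_tail (hW : ∀ ε : ℝ, 0 < ε → Win.ApW (Win.Adw ε) a φ e α X) (h : Law2 e μ)
    (hna : ∀ x : ℝ, (μ : Measure ℝ) {x} = 0) {P U V : ℝ} (hP0 : 0 < P) (hU0 : 0 < U)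
    (hl1 : 2 * P ≤ 1 - (μ : Measure ℝ).real (Set.Iic V)) (hl2 : 2 * P ≤ (μ : Measure ℝ).real (Set.Iic (-V)))
    (hu : (μ : Measure ℝ).real {x | V ≤ |x|} ≤ (1/2) * U) {ε : ℝ} (hε : 0 < ε) :
    ∃ N0 : ℕ, ∀ N : ℕ, N0 ≤ N → ∀ k : ℕ, (k:ℝ) ^ (1/2 + ε) ≤ N →
        (P * N ≤ (((Finset.range N).filter (fun n => V < e (k + n))).card : ℝ) ∧
         (((Finset.range N).filter (fun n => V < e (k + n))).card : ℝ) ≤ U * N) ∧
        (P * N ≤ (((Finset.range N).filter (fun n => e (k + n) < -V)).card : ℝ) ∧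
         (((Finset.range N).filter (fun n => e (k + n) < -V)).card : ℝ) ≤ U * N) := by
  set η := min (P/2) (U/2) with hη
  have hη0 : 0 < η := lt_min (by positivity) (by positivity)
  obtain ⟨N0, hN0⟩ := wcdf (hW ε hε).wb (Win.Adw_zero hε) h hna η hη0
  refine ⟨max N0 1, ?_⟩
  intro N hN k hk
  have hN1 : (0:ℝ) < N := by
    have : 1 ≤ N := (le_max_right _ _).trans hN
    exact_mod_cast this
  have h1 := (hN0 N ((le_max_left _ _).trans hN) k hk V).1
  have h2 := (hN0 N ((le_max_left _ _).trans hN) k hk (-V)).2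
  have hη1 : η ≤ P/2 := min_le_left _ _
  have hη2 : η ≤ U/2 := min_le_right _ _
  have h3 : (((Finset.range N).filter (fun n => e (k + n) ≤ V)).card : ℝ) +
      (((Finset.range N).filter (fun n => V < e (k + n))).card : ℝ) = N := by
    have := Finset.card_filter_add_card_filter_not (s := Finset.range N) (fun n => e (k + n) ≤ V)
    rw [Finset.card_range] at this
    simp only [not_le] at this
    exact_mod_cast this
  have h5 : (((Finset.range N).filter (fun n => e (k + n) ≤ V)).card : ℝ) / N +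
      (((Finset.range N).filter (fun n => V < e (k + n))).card : ℝ) / N = 1 := by
    rw [← add_div, h3, div_self hN1.ne']
  have hμ1 : 1 - (μ : Measure ℝ).real (Set.Iic V) ≤ (μ : Measure ℝ).real {x | V ≤ |x|} := by
    have h6 : 1 - (μ : Measure ℝ).real (Set.Iic V) = (μ : Measure ℝ).real (Set.Iic V)ᶜ := by
      rw [measureReal_compl measurableSet_Iic]; simp
    rw [h6]
    refine measureReal_mono ?_ (measure_ne_top _ _)
    intro x hx
    simp only [Set.mem_compl_iff, Set.mem_Iic, not_le] at hx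
    exact hx.le.trans (le_abs_self x)
  have hμ2 : (μ : Measure ℝ).real (Set.Iic (-V)) ≤ (μ : Measure ℝ).real {x | V ≤ |x|} := by
    refine measureReal_mono ?_ (measure_ne_top _ _)
    intro x hx
    simp only [Set.mem_Iic] at hx
    exact (by linarith : V ≤ -x).trans (neg_le_abs x)
  have a1 := abs_le.mp h1
  have a2 := abs_le.mp h2
  refine ⟨⟨?_, ?_⟩, ?_, ?_⟩
  · rw [← le_div_iff₀ hN1]; linarith
  · rw [← div_le_iff₀ hN1]; linarith
  · rw [← le_div_iff₀ hN1]; linarith
  · rw [← div_le_iff₀ hN1]; linarith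

variable {Qp : ℕ → Prop} [DecidablePred Qp] {K : ℝ}

open Classical in
/-- exact order of the tails in short windows -/
theorem tails_gen (hpos : ∀ m, 0 ≤ a m) (hK : 0 < K) (hc : ClsBd a Qp K)
    {C3 : ℝ} (hC3 : ∀ M : ℕ, 3 / 2 * ∑ m ∈ Finset.Icc 1 (M^2), (a m)^2 ≤ C3)
    {b : ℝ} (hb : 0 ≤ b) (hB : 1 ≤ (2:ℝ)^(4/3:ℝ) * b) (hps : PS Qp b) {γ : ℝ} (hγ : γ = 3/4 * ((2:ℝ)^(4/3:ℝ) * b - 1))
    {c1 : ℝ} (hc1 : 0 < c1) (hs : HSet a γ c1) :
    ∃ c C : ℝ, 0 < c ∧ 0 < C ∧ ∀ (φ α X : ℝ) (e : ℕ → ℝ) (μ : ProbabilityMeasure ℝ), 0 < α → Ap a φ e α X →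
      (∀ ε : ℝ, 0 < ε → Win.ApW (Win.Adw ε) a φ e α X) → Law2 e μ → (∀ x : ℝ, (μ : Measure ℝ) {x} = 0) →
      ∃ V0 : ℝ, 2 ≤ V0 ∧ ∀ V : ℝ, V0 ≤ V → ∀ ε : ℝ, 0 < ε →
      ∃ N0 : ℕ, ∀ N : ℕ, N0 ≤ N → ∀ k : ℕ, (k:ℝ) ^ (1/2 + ε) ≤ N →
        (Real.exp (-(C * LV γ V)) * N ≤ (((Finset.range N).filter (fun n => V < e (k + n))).card : ℝ) ∧
         (((Finset.range N).filter (fun n => V < e (k + n))).card : ℝ) ≤ Real.exp (-(c * LV γ V)) * N) ∧
        (Real.exp (-(C * LV γ V)) * N ≤ (((Finset.range N).filter (fun n => e (k + n) < -V)).card : ℝ) ∧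
         (((Finset.range N).filter (fun n => e (k + n) < -V)).card : ℝ) ≤ Real.exp (-(c * LV γ V)) * N) := by
  have hγ0 : 0 ≤ γ := by rw [hγ]; linarith
  obtain ⟨c, hc', hup⟩ := up2 hK hc hb hB hps
  rw [← hγ] at hup
  set C := 2 * (32 / c1) ^ 4 with hC'
  have hC : 0 < C := by positivity
  refine ⟨c, 2 * C, hc', by positivity, ?_⟩
  intro φ α X e μ hα hA hW h hna
  obtain ⟨S0, hS⟩ := exists_S hα
  obtain ⟨B1, hB1, hBB⟩ := aE_bdd hK hc S0
  obtain ⟨V1, hV1, hlow⟩ := low2 (X := X) (e' := e) hpos hS hA (hBB φ) hC3 hγ0 hc1 hs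
  obtain ⟨V2, hV2, hup⟩ := hup φ α X S0 e μ hS hA h.law
  obtain ⟨V3, hV3⟩ := eventually_atTop.mp (LV_large γ (1 / C))
  refine ⟨max (max V1 V2) V3, (hV1.trans (le_max_left _ _)).trans (le_max_left _ _), ?_⟩
  intro V hV ε hε
  have hVV1 : V1 ≤ V := ((le_max_left _ _).trans (le_max_left _ _)).trans hV
  have hVV2 : V2 ≤ V := ((le_max_right _ _).trans (le_max_left _ _)).trans hV
  have hVV3 : V3 ≤ V := (le_max_right _ _).trans hV
  have hlow' := hlow V hVV1
  rw [← hC'] at hlow'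
  obtain ⟨g1, g2⟩ := tail_low hW h hna hlow'
  have g3 := hup V hVV2
  have g4 := hV3 V hVV3
  have hhalf : 2 * Real.exp (-(2 * C * LV γ V)) ≤ Real.exp (-(C * LV γ V)) := by
    have e1 : Real.exp (-(2 * C * LV γ V)) = Real.exp (-(C * LV γ V)) * Real.exp (-(C * LV γ V)) := by
      rw [← Real.exp_add]; congr 1; ring
    have e2 : Real.exp (-(C * LV γ V)) ≤ 1/2 := by
      have e3 : 1 ≤ C * LV γ V := by
        rw [div_le_iff₀ hC] at g4
        linarith
      have e4 : Real.exp (-(C * LV γ V)) ≤ Real.exp (-1) := Real.exp_le_exp.mpr (by linarith)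
      have e5 : Real.exp (-1) ≤ 1/2 := by
        rw [Real.exp_neg]
        have := Real.exp_one_gt_d9
        rw [inv_le_comm₀ (Real.exp_pos _) (by norm_num)]
        linarith
      linarith
    rw [e1]
    have := Real.exp_pos (-(C * LV γ V))
    nlinarith
  exact win_tail hW h hna (Real.exp_pos _) (Real.exp_pos _) (hhalf.trans g1) (hhalf.trans g2) g3 hε

end Pool.Agent.NH14.TL
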