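import Mathlib
import Pool.Agent.NH14.TL.T4
import Pool.Agent.NH14.LI.N19
import Pool.Agent.H383.Full3

/-! Exact order of the tails: circle and divisor problem. -/

set_option autoImplicit false

open MeasureTheory Filter Topology
open Pool.Agent.H383.Gen
open Pool.Agent.H383.AP
open Pool.Agent.NH14.LI
open Pool.Agent.H452R2
open Pool.Agent.H452R2.Om (zz gam_c gam_d zz_ge_two)

namespace Pool.Agent.NH14.TL

section circ

open Pool.Agent.H383.Gauss Pool.Agent.H383.Circ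
open Pool.Agent.H383.Div (card_Ico)

open Classical in
theorem tails_circ : ∃ c₁ C : ℝ, 0 < c₁ ∧ 0 < C ∧ ∀ a b c : ℝ, 0 < a → (∀ n : ℕ, 0 < a * n^2 + b * n + c) →
    ∃ V₀ : ℝ, 2 ≤ V₀ ∧ ∀ V : ℝ, V₀ ≤ V → ∀ ε : ℝ, 0 < ε →
      ∃ N₀ : ℕ, ∀ N : ℕ, N₀ ≤ N → ∀ k : ℕ, (k:ℝ) ^ (1/2 + ε) ≤ N →
        (Real.exp (-(C * LV (3/4 * ((2:ℝ)^(1/3:ℝ) - 1)) V)) * N ≤ (((Finset.Ico k (k + N)).filter (fun n : ℕ =>
            V * (a * n^2 + b * n + c) ^ (1/4:ℝ) < Cx (a * n^2 + b * n + c))).card : ℝ) ∧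
         (((Finset.Ico k (k + N)).filter (fun n : ℕ =>
            V * (a * n^2 + b * n + c) ^ (1/4:ℝ) < Cx (a * n^2 + b * n + c))).card : ℝ) ≤
            Real.exp (-(c₁ * LV (3/4 * ((2:ℝ)^(1/3:ℝ) - 1)) V)) * N) ∧
        (Real.exp (-(C * LV (3/4 * ((2:ℝ)^(1/3:ℝ) - 1)) V)) * N ≤ (((Finset.Ico k (k + N)).filter (fun n : ℕ =>
            Cx (a * n^2 + b * n + c) < -(V * (a * n^2 + b * n + c) ^ (1/4:ℝ)))).card : ℝ) ∧
         (((Finset.Ico k (k + N)).filter (fun n : ℕ =>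
            Cx (a * n^2 + b * n + c) < -(V * (a * n^2 + b * n + c) ^ (1/4:ℝ)))).card : ℝ) ≤
            Real.exp (-(c₁ * LV (3/4 * ((2:ℝ)^(1/3:ℝ) - 1)) V)) * N) := by
  obtain ⟨K, hK, hcls⟩ := ClsBd_circ
  obtain ⟨C3, hC30, hC3⟩ := sq_sum_le ag_Bd
  obtain ⟨c1, K0, hc1, hs⟩ := Pool.Agent.NH14.LI.circ_sets2
  rw [gam_c] at hs
  have hs' : HSet ag (3/4 * ((2:ℝ)^(1/3:ℝ) - 1)) c1 := ⟨K0, hs⟩
  obtain ⟨c₁, C, h1, h2, hmain⟩ := tails_gen (b := 1/2) ag_nonneg hK hcls hC3 (by norm_num)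
    (by rw [two43]; exact one_le_two13) PS_circ (by rw [two43]) hc1 hs'
  refine ⟨c₁, C, h1, h2, ?_⟩
  intro a b c ha hP
  have hsa : 0 < √a := Real.sqrt_pos.mpr ha
  have hAp := quad_Ap ha (fun n => (hP n).le)
  obtain ⟨μ, hμ2, hμ⟩ := hAp.b2.limit
  have hμL : Law2 (fun n : ℕ => En √(a * n^2 + b * n + c)) μ := hμ
  obtain ⟨g, hg1, hg2, hg3, hg4⟩ := ent hAp hμL Win.ag_Bdw ag_LB (by positivity)
  have hna := no_atoms hg3
  have hW : ∀ ε : ℝ, 0 < ε → Win.ApW (Win.Adw ε) ag (3 * Real.pi/4) (fun n : ℕ => En √(a * n^2 + b * n + c)) (√a) (b / (2 * √a)) :=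
    fun ε hε => Win.circ_ApW ha (fun n => (hP n).le) hε
  obtain ⟨V₀, h3, h⟩ := hmain _ _ _ _ μ hsa hAp hW hμL hna
  refine ⟨V₀, h3, ?_⟩
  intro V hV ε hε
  obtain ⟨N0, h⟩ := h V hV ε hε
  refine ⟨N0, ?_⟩
  intro N hN k hk
  have h1 := h N hN k hk
  have e1 : ((Finset.range N).filter (fun n => V < En √(a * ((k + n : ℕ):ℝ)^2 + b * ((k + n : ℕ):ℝ) + c))).card =
      ((Finset.Ico k (k + N)).filter (fun n : ℕ =>
            V * (a * n^2 + b * n + c) ^ (1/4:ℝ) < Cx (a * n^2 + b * n + c))).card := by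
    rw [card_Ico (fun n => V < En √(a * n^2 + b * n + c))]
    congr 1
    apply Finset.filter_congr
    intro n _
    have hx := hP n
    have hs : 0 < (a * n^2 + b * n + c) ^ (1/4:ℝ) := by positivity
    rw [En_quad hx.le, lt_div_iff₀ hs]
  have e2 : ((Finset.range N).filter (fun n => En √(a * ((k + n : ℕ):ℝ)^2 + b * ((k + n : ℕ):ℝ) + c) < -V)).card =
      ((Finset.Ico k (k + N)).filter (fun n : ℕ =>
            Cx (a * n^2 + b * n + c) < -(V * (a * n^2 + b * n + c) ^ (1/4:ℝ)))).card := by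
    rw [card_Ico (fun n => En √(a * n^2 + b * n + c) < -V)]
    congr 1
    apply Finset.filter_congr
    intro n _
    have hx := hP n
    have hs : 0 < (a * n^2 + b * n + c) ^ (1/4:ℝ) := by positivity
    rw [En_quad hx.le, div_lt_iff₀ hs, neg_mul]
  rw [e1, e2] at h1
  exact h1

end circ

section div

open Pool.Agent.H387R2.Vor
open Pool.Agent.H383.Div

open Classical in
theorem tails_div : ∃ c₁ C : ℝ, 0 < c₁ ∧ 0 < C ∧ ∀ a b c : ℝ, 0 < a → (∀ n : ℕ, 0 < a * n^2 + b * n + c) →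
    ∃ V₀ : ℝ, 2 ≤ V₀ ∧ ∀ V : ℝ, V₀ ≤ V → ∀ ε : ℝ, 0 < ε →
      ∃ N₀ : ℕ, ∀ N : ℕ, N₀ ≤ N → ∀ k : ℕ, (k:ℝ) ^ (1/2 + ε) ≤ N →
        (Real.exp (-(C * LV (3/4 * ((2:ℝ)^(4/3:ℝ) - 1)) V)) * N ≤ (((Finset.Ico k (k + N)).filter (fun n : ℕ =>
            V * (a * n^2 + b * n + c) ^ (1/4:ℝ) < Dx (a * n^2 + b * n + c))).card : ℝ) ∧
         (((Finset.Ico k (k + N)).filter (fun n : ℕ =>
            V * (a * n^2 + b * n + c) ^ (1/4:ℝ) < Dx (a * n^2 + b * n + c))).card : ℝ) ≤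
            Real.exp (-(c₁ * LV (3/4 * ((2:ℝ)^(4/3:ℝ) - 1)) V)) * N) ∧
        (Real.exp (-(C * LV (3/4 * ((2:ℝ)^(4/3:ℝ) - 1)) V)) * N ≤ (((Finset.Ico k (k + N)).filter (fun n : ℕ =>
            Dx (a * n^2 + b * n + c) < -(V * (a * n^2 + b * n + c) ^ (1/4:ℝ)))).card : ℝ) ∧
         (((Finset.Ico k (k + N)).filter (fun n : ℕ =>
            Dx (a * n^2 + b * n + c) < -(V * (a * n^2 + b * n + c) ^ (1/4:ℝ)))).card : ℝ) ≤
            Real.exp (-(c₁ * LV (3/4 * ((2:ℝ)^(4/3:ℝ) - 1)) V)) * N) := by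
  obtain ⟨K, hK, hcls⟩ := ClsBd_div
  obtain ⟨C3, hC30, hC3⟩ := sq_sum_le ad_Bd
  obtain ⟨c1, K0, hc1, hs⟩ := Pool.Agent.NH14.LI.div_sets2
  rw [gam_d] at hs
  have h243 : (1:ℝ) ≤ (2:ℝ)^(4/3:ℝ) * 1 := by rw [mul_one]; exact Real.one_le_rpow (by norm_num) (by norm_num)
  have hs' : HSet ad (3/4 * ((2:ℝ)^(4/3:ℝ) - 1)) c1 := ⟨K0, hs⟩
  obtain ⟨c₁, C, h1, h2, hmain⟩ := tails_gen (b := 1) ad_nonneg hK hcls hC3 (by norm_num)
    h243 PS_div (by rw [mul_one]) hc1 hs'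
  refine ⟨c₁, C, h1, h2, ?_⟩
  intro a b c ha hP
  have hsa : 0 < √a := Real.sqrt_pos.mpr ha
  have hAp := quad_Ap vor ha (fun n => (hP n).le)
  obtain ⟨μ, hμ2, hμ⟩ := hAp.b2.limit
  have hμL : Law2 (fun n : ℕ => Ed √(a * n^2 + b * n + c)) μ := hμ
  obtain ⟨g, hg1, hg2, hg3, hg4⟩ := ent hAp hμL Win.ad_Bdw2 ad_LB (by positivity)
  have hna := no_atoms hg3
  have hW : ∀ ε : ℝ, 0 < ε → Win.ApW (Win.Adw ε) ad (Real.pi/4) (fun n : ℕ => Ed √(a * n^2 + b * n + c)) (2 * √a) (b / √a) :=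
    fun ε hε => Win.div_ApW vor ha (fun n => (hP n).le) hε
  obtain ⟨V₀, h3, h⟩ := hmain _ _ _ _ μ (by positivity) hAp hW hμL hna
  refine ⟨V₀, h3, ?_⟩
  intro V hV ε hε
  obtain ⟨N0, h⟩ := h V hV ε hε
  refine ⟨N0, ?_⟩
  intro N hN k hk
  have h1 := h N hN k hk
  have e1 : ((Finset.range N).filter (fun n => V < Ed √(a * ((k + n : ℕ):ℝ)^2 + b * ((k + n : ℕ):ℝ) + c))).card =
      ((Finset.Ico k (k + N)).filter (fun n : ℕ =>
            V * (a * n^2 + b * n + c) ^ (1/4:ℝ) < Dx (a * n^2 + b * n + c))).card := by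
    rw [card_Ico (fun n => V < Ed √(a * n^2 + b * n + c))]
    congr 1
    apply Finset.filter_congr
    intro n _
    have hx := hP n
    have hs : 0 < (a * n^2 + b * n + c) ^ (1/4:ℝ) := by positivity
    rw [Ed_quad hx.le, lt_div_iff₀ hs]
  have e2 : ((Finset.range N).filter (fun n => Ed √(a * ((k + n : ℕ):ℝ)^2 + b * ((k + n : ℕ):ℝ) + c) < -V)).card =
      ((Finset.Ico k (k + N)).filter (fun n : ℕ =>
            Dx (a * n^2 + b * n + c) < -(V * (a * n^2 + b * n + c) ^ (1/4:ℝ)))).card := by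
    rw [card_Ico (fun n => Ed √(a * n^2 + b * n + c) < -V)]
    congr 1
    apply Finset.filter_congr
    intro n _
    have hx := hP n
    have hs : 0 < (a * n^2 + b * n + c) ^ (1/4:ℝ) := by positivity
    rw [Ed_quad hx.le, div_lt_iff₀ hs, neg_mul]
  rw [e1, e2] at h1
  exact h1

end div

lemma LV_val {γ x : ℝ} (h : 4 * γ = x) (V : ℝ) : LV γ V = V ^ 4 * (Real.log V) ^ (-x) := by
  unfold LV; rw [h]

end Pool.Agent.NH14.TL
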